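import Pool.Agent.H90.STK.Stmts

/-!
# Refining the resolution
-/

set_option autoImplicit false

namespace Pool.STK

open Finset Real MeasureTheory
open Pool.Agent.H49.Ent Pool.Agent.H32.Dense

namespace RFN

lemma floor_aux {a b : ℝ} {j k : ℕ} (h : ⌊2 ^ j * a⌋ = ⌊2 ^ j * b⌋) :
    |((⌊2 ^ (j + k) * a⌋ - ⌊2 ^ (j + k) * b⌋ : ℤ) : ℝ)| ≤ 2 ^ k := by
  have h1 := Int.floor_le (2 ^ j * a)
  have h2 := Int.lt_floor_add_one (2 ^ j * a)
  have h3 := Int.floor_le (2 ^ j * b)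
  have h4 := Int.lt_floor_add_one (2 ^ j * b)
  rw [h] at h1 h2
  have hk : (0 : ℝ) < 2 ^ k := by positivity
  have e1 : (2 : ℝ) ^ (j + k) * a = 2 ^ k * (2 ^ j * a) := by rw [pow_add]; ring
  have e2 : (2 : ℝ) ^ (j + k) * b = 2 ^ k * (2 ^ j * b) := by rw [pow_add]; ring
  have g1 := Int.floor_le ((2 : ℝ) ^ (j + k) * a)
  have g2 := Int.lt_floor_add_one ((2 : ℝ) ^ (j + k) * a)
  have g3 := Int.floor_le ((2 : ℝ) ^ (j + k) * b)
  have g4 := Int.lt_floor_add_one ((2 : ℝ) ^ (j + k) * b)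
  have d1 : 2 ^ k * (2 ^ j * a) - 2 ^ k * (2 ^ j * b) < 2 ^ k := by
    rw [← mul_sub]
    have : 2 ^ j * a - 2 ^ j * b < 1 := by linarith
    nlinarith
  have d2 : 2 ^ k * (2 ^ j * b) - 2 ^ k * (2 ^ j * a) < 2 ^ k := by
    rw [← mul_sub]
    have : 2 ^ j * b - 2 ^ j * a < 1 := by linarith
    nlinarith
  have i1 : (⌊2 ^ (j + k) * a⌋ - ⌊2 ^ (j + k) * b⌋ : ℤ) < 2 ^ k + 1 := by
    have : ((⌊2 ^ (j + k) * a⌋ - ⌊2 ^ (j + k) * b⌋ : ℤ) : ℝ) < ((2 ^ k + 1 : ℤ) : ℝ) := by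
      push_cast
      linarith
    exact_mod_cast this
  have i2 : (⌊2 ^ (j + k) * b⌋ - ⌊2 ^ (j + k) * a⌋ : ℤ) < 2 ^ k + 1 := by
    have : ((⌊2 ^ (j + k) * b⌋ - ⌊2 ^ (j + k) * a⌋ : ℤ) : ℝ) < ((2 ^ k + 1 : ℤ) : ℝ) := by
      push_cast
      linarith
    exact_mod_cast this
  have i3 : |(⌊2 ^ (j + k) * a⌋ - ⌊2 ^ (j + k) * b⌋ : ℤ)| ≤ 2 ^ k := by
    rw [abs_le]
    constructor <;> linarith
  exact_mod_cast i3

end RFN

theorem rfn_thm : RFNStmt := by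
  intro m Ω ζ _ p x Z hp k j
  have h0 := CH_le_add hp.nonneg (Fl x (j + k)) (Fl x j) Z
  have h1 := CH_le_vec hp.nonneg hp.sum_one (Fl x (j + k)) (fun ω => (Fl x j ω, Z ω))
    (fun _ => 2 ^ k) (fun ω ω' _ _ e i => by
      simp only [Prod.mk.injEq] at e
      exact RFN.floor_aux (congrFun e.1 i))
  rw [Ex_const hp.sum_one] at h1
  have hk : (1 : ℝ) ≤ 2 ^ k := one_le_pow₀ (by norm_num)
  have h2 : Real.log (2 * 2 ^ k + 1) ≤ k * Real.log 2 + Real.log 100 := by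
    rw [← Real.log_pow, ← Real.log_mul (by positivity) (by norm_num)]
    refine Real.log_le_log (by positivity) ?_
    linarith
  have h3 : (m : ℝ) * Real.log (2 * 2 ^ k + 1) ≤ m * (k * Real.log 2 + Real.log 100) :=
    mul_le_mul_of_nonneg_left h2 (Nat.cast_nonneg m)
  have h4 : (m : ℝ) * (k * Real.log 2 + Real.log 100) = m * (k * Real.log 2) + cc m := by
    unfold cc; ring
  linarith

end Pool.STK
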